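import Pool.Agent.K7.H98.MM4

/-!
# Degree-one vertices do not always destroy percolation in stable multi-matchings

For every dimension `d ≥ 1`, every law `ν` on `{2, 3, …}` with `ν [k, ∞) ≥ k ^ (-s)` for all large
`k` and some `s < 1`, and every `p < 1`, the stable multi-matching of the Poisson process with the
degree law `p δ_1 + (1 - p) ν` has almost surely an infinite component.

Idea: almost surely, for all large `n`, the ball of radius `2 ^ n` contains a point whose degree is
larger than the number of points of the ball of radius `2 ^ (n + 3)`. Two such points at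
consecutive scales are willing to link to each other, whatever their other links are, hence they
are linked.
-/

set_option autoImplicit false

namespace Pool.Agent.Results.MP_bae357_pr.HeavyTailPercolates

open MeasureTheory Set Filter ProbabilityTheory
open scoped ENNReal NNReal Topology
open Pool.Agent.K7.H98.MM

/-- an explicit heavy tailed law on `{2, 3, …}` -/
theorem exists_law : ∃ ν : Measure ℕ, IsProbabilityMeasure ν ∧ ν {j | j < 2} = 0 ∧
    ∀ᶠ k : ℕ in atTop, ENNReal.ofReal ((k : ℝ) ^ (-(1 / 2 : ℝ))) ≤ ν {j | k ≤ j} := by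
  set f : ℝ → ℕ := fun u => ⌊(u ^ 2)⁻¹⌋₊ + 2 with hf
  have hfm : Measurable f := by
    refine Measurable.add_const ?_ 2
    exact Nat.measurable_floor.comp (by fun_prop)
  set ρ : Measure ℝ := volume.restrict (Icc 0 1) with hρ
  have hρp : IsProbabilityMeasure ρ := by
    constructor
    rw [hρ, Measure.restrict_apply_univ, Real.volume_Icc]
    simp
  refine ⟨ρ.map f, Measure.isProbabilityMeasure_map hfm.aemeasurable, ?_, ?_⟩
  · rw [Measure.map_apply hfm (MeasurableSet.of_discrete)]
    have : f ⁻¹' {j | j < 2} = ∅ := by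
      ext u
      simp [hf]
    rw [this, measure_empty]
  · filter_upwards [eventually_ge_atTop 1] with k hk
    rw [Measure.map_apply hfm (MeasurableSet.of_discrete)]
    have hk' : (1 : ℝ) ≤ k := by exact_mod_cast hk
    have hk0 : (0 : ℝ) < k := by linarith
    set t : ℝ := (k : ℝ) ^ (-(1 / 2 : ℝ)) with ht
    have ht0 : 0 < t := Real.rpow_pos_of_pos hk0 _
    have ht1 : t ≤ 1 := Real.rpow_le_one_of_one_le_of_nonpos hk' (by norm_num)
    have ht2 : t ^ 2 = (k : ℝ)⁻¹ := by
      rw [ht, ← Real.rpow_natCast, ← Real.rpow_mul hk0.le]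
      norm_num
      rw [Real.rpow_neg_one]
    have hsub : Ioc 0 t ⊆ f ⁻¹' {j | k ≤ j} ∩ Icc 0 1 := by
      intro u hu
      refine ⟨?_, hu.1.le, hu.2.trans ht1⟩
      show k ≤ f u
      have hu2 : u ^ 2 ≤ (k : ℝ)⁻¹ := by
        rw [← ht2]
        exact pow_le_pow_left₀ hu.1.le hu.2 2
      have hu3 : (k : ℝ) ≤ (u ^ 2)⁻¹ := by
        have := inv_anti₀ (pow_pos hu.1 2) hu2
        rwa [inv_inv] at this
      have hu4 : k ≤ ⌊(u ^ 2)⁻¹⌋₊ := Nat.le_floor hu3
      rw [hf]
      exact hu4.trans (Nat.le_add_right _ _)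
    calc ENNReal.ofReal t = volume (Ioc 0 t) := by rw [Real.volume_Ioc, sub_zero]
      _ ≤ volume (f ⁻¹' {j | k ≤ j} ∩ Icc 0 1) := measure_mono hsub
      _ ≤ ρ (f ⁻¹' {j | k ≤ j}) := Measure.le_restrict_apply _ _

/-- **Negative answer to the question.** Heavy tailed degree laws percolate for every proportion
`p < 1` of points of degree one, in every dimension. -/
theorem result :
    (∀ d : ℕ, 1 ≤ d → ∀ ν : Measure ℕ, IsProbabilityMeasure ν → ∀ s : ℝ, 0 < s → s < 1 →
      (∀ᶠ k : ℕ in atTop, ENNReal.ofReal ((k : ℝ) ^ (-s)) ≤ ν {j | k ≤ j}) →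
      ∀ p : ℝ≥0, p < 1 → ∀ (Ω : Type) (_ : MeasurableSpace Ω) (P : Measure Ω),
      IsProbabilityMeasure P → ∀ (S : Ω → Set (Sp d)) (D : Ω → Sp d → ℕ),
      IsPoissonWithDegrees P (mix p ν) S D →
      ∀ᵐ ω ∂P, (∃ G : SimpleGraph (S ω), IsStable (S ω) (D ω) G) ∧
        ∀ G : SimpleGraph (S ω), IsStable (S ω) (D ω) G →
          ∃ C : G.ConnectedComponent, C.supp.Infinite) ∧
    ∃ ν : Measure ℕ, IsProbabilityMeasure ν ∧ ν {j | j < 2} = 0 ∧
      ∀ᶠ k : ℕ in atTop, ENNReal.ofReal ((k : ℝ) ^ (-(1 / 2 : ℝ))) ≤ ν {j | k ≤ j} :=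
  ⟨fun _ hd ν _ _ hs0 hs hν _ hp _ _ _ _ _ _ h => percolates hd ν hs0 hs hν hp h, exists_law⟩

end Pool.Agent.Results.MP_bae357_pr.HeavyTailPercolates
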